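import Pool.Agent.W425.IM.Stm
import Pool.Agent.W347.NMChamber

/-!
IM-CHAMBERI: a chamber containing the given type (adapted from `Pool.Agent.W347.NMChamber`).
-/

set_option autoImplicit false
set_option linter.all false

namespace Pool.Agent.W101.IM

open Pool.Agent.W749.NM Pool.Agent.W428.MOT
open Pool.Agent.W426.SM (gord IsRay face)
open Pool.Agent.W347.NMChamber (gord_le gord_mem face_iff dot dot_add_smul G mem_G exists_int)

variable {n k : ℕ}

/-- improvement step -/
theorem step (m : Fin k → Fin n → ℕ) (Fa : Finset (Fin k)) (v w : Fin n → ℚ)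
    (j0 : Fin k) (hj0 : j0 ∈ G m Fa v) (hw : ∀ j ∈ G m Fa v, dot m w j = dot m w j0)
    (hlt : ∃ j ∈ Fa, dot m w j < dot m w j0) :
    ∃ t : ℚ, G m Fa v ⊂ G m Fa (fun i => v i + t * w i) := by
  classical
  set c := dot m w j0 with hc
  set M := dot m v j0 with hM
  let T := Fa.filter fun j => dot m w j < c
  have hT : T.Nonempty := by
    obtain ⟨j, hj, hj'⟩ := hlt
    exact ⟨j, Finset.mem_filter.mpr ⟨hj, hj'⟩⟩
  obtain ⟨js, hjs, hmin⟩ := Finset.exists_min_image T (fun j => (dot m v j - M) / (c - dot m w j)) hT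
  obtain ⟨hjsF, hjsc⟩ := Finset.mem_filter.mp hjs
  have hGmin : ∀ j ∈ Fa, M ≤ dot m v j := ((mem_G m Fa v j0).mp hj0).2
  set t := (dot m v js - M) / (c - dot m w js) with ht
  have ht0 : 0 ≤ t := div_nonneg (by linarith [hGmin js hjsF]) (by linarith)
  refine ⟨t, ?_⟩
  have hval : ∀ j ∈ Fa, M + t * c ≤ dot m v j + t * dot m w j := by
    intro j hj
    by_cases hjc : dot m w j < c
    · have h1 := hmin j (Finset.mem_filter.mpr ⟨hj, hjc⟩)
      have h2 : 0 < c - dot m w j := by linarith
      rw [le_div_iff₀ h2] at h1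
      linarith
    · push Not at hjc
      have h1 := hGmin j hj
      nlinarith [mul_le_mul_of_nonneg_left hjc ht0]
  have hmem : ∀ j ∈ Fa, dot m v j + t * dot m w j = M + t * c → j ∈ G m Fa (fun i => v i + t * w i) := by
    intro j hj he
    rw [mem_G]
    refine ⟨hj, fun j' hj' => ?_⟩
    rw [dot_add_smul, dot_add_smul, he]
    exact hval j' hj'
  rw [Finset.ssubset_iff_of_subset]
  · refine ⟨js, ?_, ?_⟩
    · apply hmem js hjsF
      have h2 : c - dot m w js ≠ 0 := by
        have : 0 < c - dot m w js := by linarith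
        exact this.ne'
      have h3 : t * (c - dot m w js) = dot m v js - M := by
        rw [ht, div_mul_cancel₀ _ h2]
      linarith
    · intro h
      have := hw js h
      linarith
  · intro j hj
    have h1 := hw j hj
    have hjF := ((mem_G m Fa v j).mp hj).1
    apply hmem j hjF
    have h2 : dot m v j = M := le_antisymm (((mem_G m Fa v j).mp hj).2 j0 ((mem_G m Fa v j0).mp hj0).1)
      (hGmin j hjF)
    rw [h1, h2]

theorem chamberI : Pool.Agent.W425.IM.S_ChamberI := by
  classical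
  intro n k m a u0 hk hray hu0 hface
  let Fa : Finset (Fin k) := Finset.univ.filter fun j => face m a j
  have hFa : ∀ j, j ∈ Fa ↔ ∑ i, a i * m j i = gord m a := by
    intro j
    constructor
    · intro h; exact (Finset.mem_filter.mp h).2
    · intro h; exact Finset.mem_filter.mpr ⟨Finset.mem_univ _, h⟩
  obtain ⟨jf, hjf⟩ := gord_mem hk m a
  have hFne : Fa.Nonempty := ⟨jf, (hFa jf).mpr hjf⟩
  -- maximal v
  obtain ⟨v, hv1, hv0, hvmax⟩ : ∃ v : Fin n → ℚ, (∀ i, a i = 0 → v i = u0 i) ∧
      amin m u0 ⊆ G m Fa v ∧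
      ∀ v' : Fin n → ℚ, (∀ i, a i = 0 → v' i = u0 i) → amin m u0 ⊆ G m Fa v' →
        (G m Fa v').card ≤ (G m Fa v).card := by
    let S : Set ℕ := {c | ∃ v : Fin n → ℚ, (∀ i, a i = 0 → v i = u0 i) ∧ amin m u0 ⊆ G m Fa v ∧
      (G m Fa v).card = c}
    have hS : S.Nonempty := by
      refine ⟨_, fun i => (u0 i : ℚ), fun _ _ => rfl, ?_, rfl⟩
      intro j hj
      rw [mem_G]
      refine ⟨(hFa j).mpr (hface j hj), fun j' _ => ?_⟩
      have h1 : ∑ i, u0 i * m j i = gord m u0 := by
        unfold amin at hj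
        exact (Finset.mem_filter.mp hj).2
      have h2 := gord_le m u0 j'
      rw [← h1] at h2
      have h3 : ((∑ i, u0 i * m j i : ℕ) : ℚ) ≤ ((∑ i, u0 i * m j' i : ℕ) : ℚ) := by
        exact_mod_cast h2
      push_cast at h3
      exact h3
    have hbd : BddAbove S := by
      refine ⟨k, ?_⟩
      rintro c ⟨v, _, _, rfl⟩
      have := Finset.card_le_univ (G m Fa v)
      simpa using this
    obtain ⟨v, hv, hv0, hvc⟩ := Nat.sSup_mem hS hbd
    refine ⟨v, hv, hv0, fun v' hv' hv0' => ?_⟩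
    rw [hvc]
    exact le_csSup hbd ⟨v', hv', hv0', rfl⟩
  obtain ⟨j0, hj0F, hj0min⟩ := Finset.exists_min_image Fa (fun j => dot m v j) hFne
  have hj0 : j0 ∈ G m Fa v := (mem_G m Fa v j0).mpr ⟨hj0F, hj0min⟩
  -- claim
  have hclaim : ∀ w : Fin n → ℚ, (∀ i, a i = 0 → w i = 0) →
      (∀ j ∈ G m Fa v, dot m w j = dot m w j0) → ∃ r : ℚ, ∀ i, w i = r * a i := by
    intro w hw0 hw
    by_contra hcon
    have hne : ∃ j ∈ Fa, dot m w j ≠ dot m w j0 := by
      by_contra hall
      push Not at hall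
      apply hcon
      apply hray.2 w hw0
      intro j j' hj hj'
      have h1 := hall j ((hFa j).mpr hj)
      have h2 := hall j' ((hFa j').mpr hj')
      unfold dot at h1 h2
      rw [h1, h2]
    obtain ⟨j, hj, hjne⟩ := hne
    rcases lt_or_gt_of_ne hjne with hlt | hgt
    · obtain ⟨t, ht⟩ := step m Fa v w j0 hj0 hw ⟨j, hj, hlt⟩
      have h9 := hvmax (fun i => v i + t * w i) (fun i hi => by rw [hv1 i hi, hw0 i hi]; ring)
        (hv0.trans ht.1)
      have h10 := Finset.card_lt_card ht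
      omega
    · have hneg : ∀ j, dot m (fun i => - w i) j = - dot m w j := by
        intro j; unfold dot
        rw [← Finset.sum_neg_distrib]
        exact Finset.sum_congr rfl fun i _ => by ring
      obtain ⟨t, ht⟩ := step m Fa v (fun i => - w i) j0 hj0
        (fun j hj => by rw [hneg, hneg, hw j hj]) ⟨j, hj, by rw [hneg, hneg]; linarith⟩
      have h9 := hvmax (fun i => v i + t * - w i) (fun i hi => by rw [hv1 i hi, hw0 i hi]; ring)
        (hv0.trans ht.1)
      have h10 := Finset.card_lt_card ht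
      omega
  -- the vector u
  obtain ⟨D, z, hD, hz⟩ := exists_int v
  have hD' : (0 : ℚ) < D := by exact_mod_cast hD
  obtain ⟨N, hN⟩ : ∃ N : ℕ, (∀ i, - v i < N) ∧ ∀ j, dot m v j0 - dot m v j < N := by
    obtain ⟨N1, hN1⟩ := exists_nat_gt (∑ i, |v i|)
    obtain ⟨N2, hN2⟩ := exists_nat_gt (∑ j, |dot m v j0 - dot m v j|)
    refine ⟨N1 + N2, fun i => ?_, fun j => ?_⟩
    · have h1 := Finset.single_le_sum (f := fun i => |v i|) (fun i _ => abs_nonneg (v i)) (Finset.mem_univ i)
      have h2 := neg_abs_le (v i)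
      push_cast
      have h3 : (0 : ℚ) ≤ N2 := by positivity
      have h4 : |v i| ≤ ∑ i, |v i| := h1
      linarith
    · have h1 : |dot m v j0 - dot m v j| ≤ ∑ j, |dot m v j0 - dot m v j| :=
        Finset.single_le_sum (f := fun j => |dot m v j0 - dot m v j|) (fun j _ => abs_nonneg _) (Finset.mem_univ j)
      have h2 := le_abs_self (dot m v j0 - dot m v j)
      push_cast
      have h3 : (0 : ℚ) ≤ N1 := by positivity
      linarith
  have hpos : ∀ i, u0 i ≠ 0 → (0 : ℚ) < N * a i + v i := by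
    intro i hi0
    by_cases hi : a i = 0
    · rw [hi, hv1 i hi]
      have : (0 : ℚ) < u0 i := by exact_mod_cast Nat.pos_of_ne_zero hi0
      simpa using this
    · have h1 : (1 : ℚ) ≤ a i := by exact_mod_cast Nat.one_le_iff_ne_zero.mpr hi
      have h2 := hN.1 i
      have h3 : (0 : ℚ) ≤ N := by positivity
      nlinarith
  have hposZ : ∀ i, u0 i ≠ 0 → 0 < (D : ℤ) * N * a i + z i := by
    intro i hi0
    have h1 : (((D : ℤ) * N * a i + z i : ℤ) : ℚ) = D * (N * a i + v i) := by
      push_cast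
      rw [hz]; ring
    have h2 : (0 : ℚ) < (((D : ℤ) * N * a i + z i : ℤ) : ℚ) := by
      rw [h1]; exact mul_pos hD' (hpos i hi0)
    exact_mod_cast h2
  have hnnZ : ∀ i, 0 ≤ (D : ℤ) * N * a i + z i := by
    intro i
    by_cases hi0 : u0 i = 0
    · have hai := hu0 i hi0
      have h1 : ((z i : ℤ) : ℚ) = 0 := by rw [hz, hv1 i hai, hi0]; simp
      have h2 : z i = 0 := by exact_mod_cast h1
      rw [hai, h2]; simp
    · exact (hposZ i hi0).le
  set u : Fin n → ℕ := fun i => ((D : ℤ) * N * a i + z i).toNat with hu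
  have huQ : ∀ i, (u i : ℚ) = D * (N * a i + v i) := by
    intro i
    have h1 : ((u i : ℤ)) = (D : ℤ) * N * a i + z i := Int.toNat_of_nonneg (hnnZ i)
    have h2 : (u i : ℚ) = (((u i : ℤ)) : ℚ) := by norm_cast
    rw [h2, h1]
    push_cast
    rw [hz]; ring
  have hsum : ∀ j, ((∑ i, u i * m j i : ℕ) : ℚ) = D * (N * ((∑ i, a i * m j i : ℕ) : ℚ) + dot m v j) := by
    intro j
    push_cast
    unfold dot
    rw [Finset.mul_sum, ← Finset.sum_add_distrib, Finset.mul_sum]
    refine Finset.sum_congr rfl fun i _ => ?_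
    rw [huQ i]; ring
  -- the minimum
  have hval : ∀ j, ((∑ i, u i * m j0 i : ℕ) : ℚ) ≤ ((∑ i, u i * m j i : ℕ) : ℚ) ∧
      (j ∉ G m Fa v → ((∑ i, u i * m j0 i : ℕ) : ℚ) < ((∑ i, u i * m j i : ℕ) : ℚ)) := by
    intro j
    have e0 : ∑ i, a i * m j0 i = gord m a := (hFa j0).mp hj0F
    rw [hsum, hsum, e0]
    by_cases hj : j ∈ Fa
    · rw [(hFa j).mp hj]
      have h1 := hj0min j hj
      constructor
      · apply mul_le_mul_of_nonneg_left _ hD'.le
        linarith
      · intro hjG
        apply mul_lt_mul_of_pos_left _ hD'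
        have h2 : dot m v j0 < dot m v j := by
          by_contra hcon
          push Not at hcon
          apply hjG
          rw [mem_G]
          exact ⟨hj, fun j' hj' => hcon.trans (hj0min j' hj')⟩
        linarith
    · have h1 : gord m a + 1 ≤ ∑ i, a i * m j i := by
        have h2 := gord_le m a j
        have h3 : gord m a ≠ ∑ i, a i * m j i := fun h => hj ((hFa j).mpr h.symm)
        omega
      have h2 : (gord m a : ℚ) + 1 ≤ ((∑ i, a i * m j i : ℕ) : ℚ) := by exact_mod_cast h1
      have h3 := hN.2 j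
      have h4 : (0 : ℚ) ≤ N := by positivity
      have h5 : (N : ℚ) * (gord m a : ℚ) + dot m v j0 < N * ((∑ i, a i * m j i : ℕ) : ℚ) + dot m v j := by
        nlinarith
      have h6 := mul_lt_mul_of_pos_left h5 hD'
      exact ⟨h6.le, fun _ => h6⟩
  have hamin : ∀ j, j ∈ amin m u ↔ j ∈ G m Fa v := by
    intro j
    unfold amin
    rw [Finset.mem_filter]
    simp only [Finset.mem_univ, true_and]
    rw [face_iff hk]
    constructor
    · intro h
      by_contra hjG
      have h1 := (hval j).2 hjG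
      have h2 := h j0
      have h3 : ((∑ i, u i * m j i : ℕ) : ℚ) ≤ ((∑ i, u i * m j0 i : ℕ) : ℚ) := by exact_mod_cast h2
      linarith
    · intro hjG j'
      have h1 : ((∑ i, u i * m j i : ℕ) : ℚ) = ((∑ i, u i * m j0 i : ℕ) : ℚ) := by
        have hjF := ((mem_G m Fa v j).mp hjG).1
        rw [hsum, hsum, (hFa j).mp hjF, (hFa j0).mp hj0F]
        have h2 : dot m v j = dot m v j0 := le_antisymm
          (((mem_G m Fa v j).mp hjG).2 j0 hj0F) (hj0min j hjF)
        rw [h2]
      have h3 := (hval j').1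
      rw [← h1] at h3
      exact_mod_cast h3
  refine ⟨u, fun i hi0 => ?_, fun j hj => (hamin j).mpr (hv0 hj), hray.1,
    ⟨j0, (hamin j0).mpr hj0⟩, fun j hj => ?_, fun w hw0 hw => ?_⟩
  · have := hposZ i hi0
    simp only [hu]
    omega
  · exact (hFa j).mp ((mem_G m Fa v j).mp ((hamin j).mp hj)).1
  · apply hclaim w hw0
    intro j hj
    exact hw j ((hamin j).mpr hj) j0 ((hamin j0).mpr hj0)

end Pool.Agent.W101.IM
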